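import Pool.Agent.Helper81.LT.Comb

/-!
# MP_c20641_lc packet IND (Hales-Jewett, several variables, canonical independence)
-/

namespace Pool.Agent.Helper13.LT

open Pool.Agent.Helper81.LT Combinatorics

theorem finite_setoid (α : Type) [Finite α] : Finite (Setoid α) := by
  apply Finite.of_injective (fun s : Setoid α => ({p : α × α | s.r p.1 p.2} : Set (α × α)))
  intro s t h
  apply Setoid.ext
  intro a b
  have := Set.ext_iff.mp h (a, b)
  simpa using this

theorem ind : IND := by
  intro M
  induction M with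
  | zero =>
    intro A C _ _
    refine ⟨Empty, inferInstance, fun Θ => ⟨fun _ k => k.elim, ⟨fun k => k.elim, fun i => i.elim0⟩,
      fun j => j.elim0⟩⟩
  | succ M ih =>
    intro A C _ _
    obtain ⟨I1, _, h1⟩ := ih A (A × C)
    have := finite_setoid ((I1 → A) × C)
    obtain ⟨I2, _, h2⟩ := Line.exists_mono_in_high_dimension A (Setoid ((I1 → A) × C))
    refine ⟨I1 ⊕ I2, inferInstance, fun Θ => ?_⟩
    obtain ⟨l, c0, hl⟩ := h2 (fun w => Setoid.comap
      (fun uc : (I1 → A) × C => ((Sum.elim uc.1 w : I1 ⊕ I2 → A), uc.2)) Θ)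
    obtain ⟨σ1, hs1, hp1⟩ := h1 (Setoid.comap
      (fun uac : (I1 → A) × (A × C) => ((Sum.elim uac.1 (l uac.2.1) : I1 ⊕ I2 → A), uac.2.2)) Θ)
    refine ⟨fun x => Sum.elim (σ1 (Fin.tail x)) (l (x 0)), ⟨?_, ?_⟩, ?_⟩
    · rintro (k | k)
      · rcases hs1.1 k with ⟨i, hi⟩ | ⟨c, hc⟩
        · left
          exact ⟨i.succ, fun w => by simp [hi, Fin.tail]⟩
        · right
          exact ⟨c, fun w => by simp [hc]⟩
      · rcases hk : l.idxFun k with _ | c
        · left
          exact ⟨0, fun w => by simp [hk]⟩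
        · right
          exact ⟨c, fun w => by simp [hk]⟩
    · intro i
      refine Fin.cases ?_ (fun i => ?_) i
      · obtain ⟨k, hk⟩ := l.proper
        exact ⟨Sum.inr k, fun w => by simp [hk]⟩
      · obtain ⟨k, hk⟩ := hs1.2 i
        exact ⟨Sum.inl k, fun w => by simp [hk, Fin.tail]⟩
    · intro j
      refine Fin.cases ?_ (fun j => ?_) j
      · intro x y c d e hxy
        simp only [Fin.tail_update_zero, Function.update_self]
        rw [← hxy]
        have h3 := (hl (x 0)).trans (hl e).symm
        have h4 := congrArg (fun s : Setoid ((I1 → A) × C) =>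
          s.r (σ1 (Fin.tail x), c) (σ1 (Fin.tail y), d)) h3
        exact iff_of_eq h4
      · intro x y c d e hxy
        have h3 := hp1 j (Fin.tail x) (Fin.tail y) (x 0, c) (y 0, d) e (by simpa [Fin.tail] using hxy)
        have hne : (0 : Fin (M + 1)) ≠ j.succ := (Fin.succ_ne_zero j).symm
        simp only [Fin.tail_update_succ, Function.update_of_ne hne]
        exact h3

end Pool.Agent.Helper13.LT
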